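import Mathlib
import Pool.Agent.LeoD.FieldStmts
import Pool.Agent.Helper29_LeoD.Fnb

/-!
# Squad LEOD, module DIF: the different of `k(√D)`
-/

set_option autoImplicit false

open NumberField IsDedekindDomain Module
open Pool.Agent.Helper85_Leo Pool.Agent.LeoK Pool.Agent.LeoG Pool.Agent.LeoC

open scoped Classical nonZeroDivisors

namespace Pool.Agent.LeoD.H31

/-- Every element is `a + b s`, and the trace of `a + b s` is `2 a`. -/
theorem quad_trace (k K : Type) [Field k] [Field K] [Algebra k K] (D : k) (s : K)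
    (h2 : finrank k K = 2) (hs : s ^ 2 = algebraMap k K D) (hns : ∀ x : k, x ^ 2 ≠ D) :
    (∀ z : K, ∃ a b : k, z = algebraMap k K a + algebraMap k K b * s) ∧
    ∀ a b : k, Algebra.trace k K (algebraMap k K a + algebraMap k K b * s) = 2 * a := by
  have hFD : FiniteDimensional k K := FiniteDimensional.of_finrank_pos (by omega)
  have hli : LinearIndependent k ![(1 : K), s] := by
    rw [LinearIndependent.pair_iff]
    intro a b hab
    have hb : b = 0 := by
      by_contra hb
      apply hns (-a / b)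
      have h1 : algebraMap k K b ≠ 0 := by simpa using hb
      have h3 : s = algebraMap k K (-a / b) := by
        rw [map_div₀, map_neg, eq_div_iff h1]
        rw [Algebra.smul_def, Algebra.smul_def, mul_one] at hab
        linear_combination hab
      rw [h3, ← map_pow] at hs
      exact (algebraMap k K).injective hs
    subst hb
    rw [zero_smul, add_zero, Algebra.smul_def, mul_one] at hab
    exact ⟨(algebraMap k K).injective (by rw [hab, map_zero]), rfl⟩
  obtain ⟨b, hb⟩ : ∃ b : Basis (Fin 2) k K, b = basisOfLinearIndependentOfCardEqFinrank hli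
      (by simp [h2]) := ⟨_, rfl⟩
  have hb0 : b 0 = 1 := by simp [hb]
  have hb1 : b 1 = s := by simp [hb]
  have htr : Algebra.trace k K s = 0 := by
    rw [Algebra.trace_eq_matrix_trace b, Matrix.trace_fin_two, Algebra.leftMulMatrix_eq_repr_mul,
      Algebra.leftMulMatrix_eq_repr_mul]
    have e0 : s * b 0 = b 1 := by rw [hb0, hb1, mul_one]
    have e1 : s * b 1 = D • b 0 := by
      rw [hb0, hb1, Algebra.smul_def, mul_one, ← hs, sq]
    rw [e0, e1, map_smul, Basis.repr_self, Basis.repr_self]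
    simp
  constructor
  · intro z
    refine ⟨b.repr z 0, b.repr z 1, ?_⟩
    have h3 := b.sum_repr z
    rw [Fin.sum_univ_two, hb0, hb1, Algebra.smul_def, Algebra.smul_def, mul_one] at h3
    exact h3.symm
  · intro a c
    rw [map_add, Algebra.trace_algebraMap, h2, ← Algebra.smul_def, map_smul, htr, smul_zero,
      add_zero]
    simp

theorem dif (oks : OksStmt) : DifStmt := by
  intro k K _ _ _ _ _ I D s h2 hs hns hF
  have hFD : FiniteDimensional k K := FiniteDimensional.of_finrank_pos (by omega)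
  have hI0 : I ≠ ⊥ := H29.fund_ne_bot hF
  obtain ⟨q, hqI, hq2⟩ := hF.sq
  have hsK : (s : K) ^ 2 = algebraMap k K (D : k) := by
    have h3 : (algebraMap k K (D : k)) = algebraMap (𝓞 k) K D := by
      rw [IsScalarTower.algebraMap_apply (𝓞 k) k K]
    rw [h3, IsScalarTower.algebraMap_apply (𝓞 k) (𝓞 K) K, ← hs, map_pow]
  have hD0 : (D : k) ≠ 0 := by
    intro h
    exact hns 0 (by rw [h]; ring)
  have hDK : algebraMap k K (D : k) ≠ 0 := by simpa using hD0
  have hs0 : (s : K) ≠ 0 := by
    intro h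
    rw [h] at hsK
    exact hDK (by rw [← hsK]; ring)
  obtain ⟨o1, o2⟩ := oks k K I D q (s : K) h2 hsK hns hF hqI hq2
  obtain ⟨t1, t2⟩ := quad_trace k K (D : k) (s : K) h2 hsK hns
  -- the inverse ideal
  have hIf : ((I : FractionalIdeal (𝓞 k)⁰ k)) ≠ 0 := by
    rwa [Ne, FractionalIdeal.coeIdeal_eq_zero]
  have hinv : ∀ y : k, y ∈ ((I : FractionalIdeal (𝓞 k)⁰ k))⁻¹ ↔
      ∀ i ∈ I, ∃ c : 𝓞 k, y * (i : k) = c := by
    intro y
    rw [FractionalIdeal.mem_inv_iff hIf]
    constructor
    · intro h i hi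
      have h3 := h (i : k) ((FractionalIdeal.mem_coeIdeal _).mpr ⟨i, hi, rfl⟩)
      rw [FractionalIdeal.mem_one_iff] at h3
      obtain ⟨c, hc⟩ := h3
      exact ⟨c, hc.symm⟩
    · intro h x hx
      obtain ⟨i, hi, rfl⟩ := (FractionalIdeal.mem_coeIdeal _).mp hx
      obtain ⟨c, hc⟩ := h i hi
      rw [FractionalIdeal.mem_one_iff]
      exact ⟨c, hc.symm⟩
  obtain ⟨J, hJ⟩ : ∃ J : Ideal (𝓞 K), J = I.map (algebraMap (𝓞 k) (𝓞 K)) := ⟨_, rfl⟩
  have hIJ : ∀ c ∈ I, algebraMap k K (c : k) ∈ ((J : FractionalIdeal (𝓞 K)⁰ K)) := by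
    intro c hc
    refine (FractionalIdeal.mem_coeIdeal _).mpr ⟨algebraMap (𝓞 k) (𝓞 K) c, ?_, ?_⟩
    · rw [hJ]
      exact Ideal.mem_map_of_mem _ hc
    · rw [← IsScalarTower.algebraMap_apply (𝓞 k) (𝓞 K) K,
        IsScalarTower.algebraMap_apply (𝓞 k) k K]
  have hmulJ : ∀ (x : 𝓞 K) (y : K), y ∈ ((J : FractionalIdeal (𝓞 K)⁰ K)) →
      (x : K) * y ∈ ((J : FractionalIdeal (𝓞 K)⁰ K)) := by
    intro x y hy
    have h3 := Submodule.smul_mem ((J : FractionalIdeal (𝓞 K)⁰ K) : Submodule (𝓞 K) K) x hy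
    rw [Algebra.smul_def] at h3
    exact h3
  have haddJ : ∀ x y : K, x ∈ ((J : FractionalIdeal (𝓞 K)⁰ K)) →
      y ∈ ((J : FractionalIdeal (𝓞 K)⁰ K)) → x + y ∈ ((J : FractionalIdeal (𝓞 K)⁰ K)) :=
    fun x y hx hy => Submodule.add_mem _ hx hy
  have hsubJ : ∀ x y : K, x ∈ ((J : FractionalIdeal (𝓞 K)⁰ K)) →
      y ∈ ((J : FractionalIdeal (𝓞 K)⁰ K)) → x - y ∈ ((J : FractionalIdeal (𝓞 K)⁰ K)) :=
    fun x y hx hy => Submodule.sub_mem _ hx hy
  obtain ⟨th, hth⟩ : ∃ th : K, th = (algebraMap k K (q : k) + s) / 2 := ⟨_, rfl⟩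
  -- `θ` lies in `I O_K`
  have hthJ : th ∈ ((J : FractionalIdeal (𝓞 K)⁰ K)) := by
    have key : ∀ x : k, x ∈ ((I : FractionalIdeal (𝓞 k)⁰ k)) * ((I : FractionalIdeal (𝓞 k)⁰ k))⁻¹ →
        algebraMap k K x * th ∈ ((J : FractionalIdeal (𝓞 K)⁰ K)) := by
      intro x hx
      refine FractionalIdeal.mul_induction_on (C := fun x => algebraMap k K x * th ∈
        ((J : FractionalIdeal (𝓞 K)⁰ K))) hx ?_ ?_
      · intro i hi j hj
        obtain ⟨c, hc, rfl⟩ := (FractionalIdeal.mem_coeIdeal _).mp hi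
        obtain ⟨w, hw⟩ := o2 j ((hinv j).mp hj)
        rw [← hth] at hw
        have h3 := hmulJ w _ (hIJ c hc)
        rw [hw] at h3
        have h4 : algebraMap k K (algebraMap (𝓞 k) k c * j) * th
            = algebraMap k K j * th * algebraMap k K (c : k) := by
          rw [map_mul]
          ring
        rw [h4]
        exact h3
      · intro x y hx hy
        rw [map_add, add_mul]
        exact haddJ _ _ hx hy
    have h3 := key 1 (by rw [mul_inv_cancel₀ hIf]; exact FractionalIdeal.one_mem_one _)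
    simpa using h3
  have hqJ := hIJ q hqI
  have h10 : (1 : FractionalIdeal (𝓞 K)⁰ K) ≠ 0 := one_ne_zero
  -- the trace dual
  have hdual : FractionalIdeal.dual (𝓞 k) k (1 : FractionalIdeal (𝓞 K)⁰ K)
      = FractionalIdeal.spanSingleton (𝓞 K)⁰ ((s : K)⁻¹) * (J : FractionalIdeal (𝓞 K)⁰ K) := by
    apply le_antisymm
    · intro z hz
      rw [FractionalIdeal.mem_dual h10] at hz
      rw [FractionalIdeal.mem_singleton_mul]
      refine ⟨z * s, ?_, by field_simp⟩
      obtain ⟨a, b, hab⟩ := t1 (z * s)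
      have hz2 : z = algebraMap k K b + algebraMap k K (a / (D : k)) * s := by
        have h3 : z = (z * s) * s / algebraMap k K (D : k) := by
          rw [← hsK]
          field_simp
        rw [h3, hab, map_div₀, ← hsK]
        field_simp
        ring
      -- the coefficient `2b` is integral
      have hb1 : ∃ c : 𝓞 k, (c : k) = 2 * b := by
        obtain ⟨c, hc⟩ := hz 1 (FractionalIdeal.one_mem_one _)
        rw [Algebra.traceForm_apply, mul_one, hz2, t2] at hc
        exact ⟨c, hc⟩
      obtain ⟨be, hbe⟩ := hb1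
      -- `a + b q` lies in `I`
      have hu : ∃ c ∈ I, (c : k) = a + b * q := by
        have h3 : a + b * (q : k) ∈ (((I : FractionalIdeal (𝓞 k)⁰ k))⁻¹)⁻¹ := by
          rw [FractionalIdeal.mem_inv_iff (inv_ne_zero hIf)]
          intro y hy
          obtain ⟨w, hw⟩ := o2 y ((hinv y).mp hy)
          obtain ⟨c, hc⟩ := hz (w : K) ((FractionalIdeal.mem_one_iff _).mpr ⟨w, rfl⟩)
          rw [Algebra.traceForm_apply] at hc
          have h4 : z * (w : K) = algebraMap k K (y * (a + b * q) / 2)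
              + algebraMap k K (y * (b + a * q / D) / 2) * s := by
            rw [hw, hz2]
            simp only [map_div₀, map_add, map_mul, map_ofNat]
            rw [← hsK]
            field_simp
            ring
          rw [h4, t2] at hc
          rw [FractionalIdeal.mem_one_iff]
          refine ⟨c, ?_⟩
          rw [hc]
          ring
        rw [inv_inv] at h3
        obtain ⟨c, hc, hc2⟩ := (FractionalIdeal.mem_coeIdeal _).mp h3
        exact ⟨c, hc, hc2⟩
      obtain ⟨c, hc, hc2⟩ := hu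
      have hw : z * (s : K) = algebraMap k K (c : k)
          - (algebraMap (𝓞 k) (𝓞 K) be : 𝓞 K) * (algebraMap k K (q : k) - th) := by
        have h5 : ((algebraMap (𝓞 k) (𝓞 K) be : 𝓞 K) : K) = algebraMap k K (2 * b) := by
          have h6 : algebraMap (𝓞 K) K (algebraMap (𝓞 k) (𝓞 K) be) = algebraMap k K (be : k) := by
            rw [← IsScalarTower.algebraMap_apply (𝓞 k) (𝓞 K) K,
              IsScalarTower.algebraMap_apply (𝓞 k) k K]
          rw [← hbe]
          exact h6
        rw [h5, hc2, hab, hth]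
        simp only [map_add, map_mul, map_ofNat]
        ring
      rw [hw]
      exact hsubJ _ _ (hIJ c hc) (hmulJ _ _ (hsubJ _ _ hqJ hthJ))
    · intro z hz
      rw [FractionalIdeal.mem_singleton_mul] at hz
      obtain ⟨w, hw, rfl⟩ := hz
      obtain ⟨x, hx, rfl⟩ := (FractionalIdeal.mem_coeIdeal _).mp hw
      rw [hJ, Ideal.map] at hx
      refine Submodule.span_induction (p := fun x _ => (s : K)⁻¹ * algebraMap (𝓞 K) K x ∈
        FractionalIdeal.dual (𝓞 k) k (1 : FractionalIdeal (𝓞 K)⁰ K)) ?_ ?_ ?_ ?_ hx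
      · rintro _ ⟨c, hc, rfl⟩
        rw [FractionalIdeal.mem_dual h10]
        intro v hv
        obtain ⟨v, rfl⟩ := (FractionalIdeal.mem_one_iff _).mp hv
        obtain ⟨a, y, hy, hv2⟩ := o1 v
        obtain ⟨e, he⟩ := hy c hc
        have h4 : (s : K)⁻¹ * algebraMap (𝓞 K) K (algebraMap (𝓞 k) (𝓞 K) c)
            * algebraMap (𝓞 K) K v = algebraMap k K (y * c / 2)
              + algebraMap k K (c * (a + y * q / 2) / D) * s := by
          have h5 : algebraMap (𝓞 K) K v = (v : K) := rfl
          have h6 : algebraMap (𝓞 K) K (algebraMap (𝓞 k) (𝓞 K) c) = algebraMap k K (c : k) := by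
            rw [← IsScalarTower.algebraMap_apply (𝓞 k) (𝓞 K) K,
              IsScalarTower.algebraMap_apply (𝓞 k) k K]
          rw [h5, h6, hv2]
          simp only [map_div₀, map_add, map_mul, map_ofNat]
          rw [← hsK]
          field_simp
          ring
        rw [Algebra.traceForm_apply, h4, t2]
        refine ⟨e, ?_⟩
        have h7 : (algebraMap (𝓞 k) k e) = y * c := he.symm
        rw [h7]
        ring
      · rw [map_zero, mul_zero]
        exact Submodule.zero_mem _
      · intro x y _ _ hx hy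
        rw [map_add, mul_add]
        exact Submodule.add_mem _ hx hy
      · intro a x _ hx
        have h3 := Submodule.smul_mem (FractionalIdeal.dual (𝓞 k) k
          (1 : FractionalIdeal (𝓞 K)⁰ K) : Submodule (𝓞 K) K) a hx
        rw [Algebra.smul_def] at h3
        rw [smul_eq_mul, map_mul]
        have h4 : (s : K)⁻¹ * (algebraMap (𝓞 K) K a * algebraMap (𝓞 K) K x)
            = algebraMap (𝓞 K) K a * ((s : K)⁻¹ * algebraMap (𝓞 K) K x) := by ring
        rw [h4]
        exact h3
  -- conclusion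
  have hJ0 : ((J : FractionalIdeal (𝓞 K)⁰ K)) ≠ 0 := by
    rw [Ne, FractionalIdeal.coeIdeal_eq_zero, hJ]
    intro h
    exact hI0 ((Ideal.map_eq_bot_iff_of_injective
      (FaithfulSMul.algebraMap_injective (𝓞 k) (𝓞 K))).mp h)
  have hcoe := coeIdeal_differentIdeal (𝓞 k) k K (𝓞 K)
  rw [← hJ]
  apply FractionalIdeal.coeIdeal_injective (K := K)
  change ((differentIdeal (𝓞 k) (𝓞 K) * J : Ideal (𝓞 K)) : FractionalIdeal (𝓞 K)⁰ K)
    = ((Ideal.span {s} : Ideal (𝓞 K)) : FractionalIdeal (𝓞 K)⁰ K)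
  rw [FractionalIdeal.coeIdeal_mul, hcoe, hdual, mul_inv, FractionalIdeal.spanSingleton_inv,
    inv_inv, mul_assoc, inv_mul_cancel₀ hJ0, mul_one, FractionalIdeal.coeIdeal_span_singleton]

end Pool.Agent.LeoD.H31
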