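import Pool.Agent.LeoD.TowStmts

/-!
# Squad LEOD, part TOW, module TWL: local descent in cyclotomic extensions
-/

set_option autoImplicit false

open Pool.Agent.Leo3 (Om InLoc FixF)

namespace Pool.Agent.LeoD.H31

/-- the group of the automorphisms fixing the image of `φ` -/
def Gam {K : Type} [Field K] (φ : K →+* Om) : Subgroup (Om ≃ₐ[ℚ_[3]] Om) where
  carrier := {ρ | FixF φ ρ}
  mul_mem' := by
    intro a b ha hb x
    change a (b (φ x)) = φ x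
    rw [hb x, ha x]
  one_mem' := fun _ => rfl
  inv_mem' := by
    intro a ha x
    change a.symm (φ x) = φ x
    rw [AlgEquiv.symm_apply_eq]
    exact (ha x).symm

/-- the stabiliser of an element -/
def Sta (y : Om) : Subgroup (Om ≃ₐ[ℚ_[3]] Om) where
  carrier := {ρ | ρ y = y}
  mul_mem' := by
    intro a b ha hb
    change a (b y) = y
    rw [hb, ha]
  one_mem' := rfl
  inv_mem' := by
    intro a ha
    change a.symm y = y
    rw [AlgEquiv.symm_apply_eq]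
    exact ha.symm

theorem cube_roots {a b : Om} (ha : a ^ 3 = 1) (hb : b ^ 3 = 1) (hb1 : b ≠ 1) :
    ∃ e : ℕ, a = b ^ e := by
  have h1 : b ^ 2 + b + 1 = 0 := by
    have h2 : (b - 1) * (b ^ 2 + b + 1) = 0 := by
      have : (b - 1) * (b ^ 2 + b + 1) = b ^ 3 - 1 := by ring
      rw [this, hb, sub_self]
    rcases mul_eq_zero.1 h2 with h3 | h3
    · exact absurd (sub_eq_zero.1 h3) hb1
    · exact h3
  have h2 : (a - 1) * ((a - b) * (a - b ^ 2)) = 0 := by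
    have : (a - 1) * ((a - b) * (a - b ^ 2)) = (a ^ 3 - 1) - (b ^ 3 - 1) -
        (b ^ 2 + b + 1) * (a ^ 2 - b * a) := by ring
    rw [this, ha, hb, h1]
    ring
  rcases mul_eq_zero.1 h2 with h3 | h3
  · exact ⟨0, by rw [pow_zero]; exact sub_eq_zero.1 h3⟩
  · rcases mul_eq_zero.1 h3 with h4 | h4
    · exact ⟨1, by rw [pow_one]; exact sub_eq_zero.1 h4⟩
    · exact ⟨2, sub_eq_zero.1 h4⟩

/-- TWL -/
theorem twl : TwlStmt := by
  intro K _ φ n w u hu hu3 hu1 hw0 hw3 hfix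
  by_cases hall : ∀ ζ : Om, ζ ^ 3 ^ n = 1 → InLoc φ ζ
  · refine ⟨w, 1, ?_, fun ρ _ => map_one ρ, ⟨0, one_pow _⟩, (one_mul _).symm⟩
    intro ρ hρ
    exact hfix ρ hρ fun ζ hζ => hall ζ hζ ρ hρ
  push Not at hall
  obtain ⟨ζ, hζ1, hζ2⟩ := hall
  classical
  -- the element `π`
  have hex : ∃ i : ℕ, InLoc φ (ζ ^ 3 ^ i) := ⟨n, by rw [hζ1]; exact fun ρ _ => map_one ρ⟩
  have hi0 : Nat.find hex ≠ 0 := by
    intro h0
    have h1 := Nat.find_spec hex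
    rw [h0, pow_zero, pow_one] at h1
    exact hζ2 h1
  obtain ⟨i, hi⟩ := Nat.exists_eq_succ_of_ne_zero hi0
  rw [Nat.succ_eq_add_one] at hi
  have hi1 : InLoc φ (ζ ^ 3 ^ (i + 1)) := hi ▸ Nat.find_spec hex
  have hi2 : ¬ InLoc φ (ζ ^ 3 ^ i) := Nat.find_min hex (by omega)
  set π : Om := ζ ^ 3 ^ i with hπ
  have hπ3 : InLoc φ (π ^ 3) := by
    rw [hπ, ← pow_mul, ← pow_succ]
    exact hi1
  have hπn : π ^ 3 ^ n = 1 := by
    rw [hπ, ← pow_mul, mul_comm, pow_mul, hζ1, one_pow]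
  have hπ0 : π ≠ 0 := by
    intro h0
    rw [h0, zero_pow (pow_ne_zero _ (by norm_num))] at hπn
    exact zero_ne_one hπn
  clear_value π
  -- the character
  have hne : NeZero (3 ^ n : ℕ) := ⟨pow_ne_zero _ (by norm_num)⟩
  have hneO : NeZero ((3 ^ n : ℕ) : Om) := ⟨Nat.cast_ne_zero.2 (pow_ne_zero _ (by norm_num))⟩
  obtain ⟨z, hz⟩ := HasEnoughRootsOfUnity.exists_primitiveRoot Om (3 ^ n)
  set χ : (Om ≃ₐ[ℚ_[3]] Om) →* (ZMod (3 ^ n))ˣ := hz.autToPow ℚ_[3] with hχ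
  have hker : ∀ ρ, χ ρ = 1 → ∀ ξ : Om, ξ ^ 3 ^ n = 1 → ρ ξ = ξ := by
    intro ρ hρ ξ hξ
    have h1 := hz.autToPow_spec ℚ_[3] ρ
    rw [← hχ, hρ] at h1
    have h2 : ρ z = z := by
      rw [← h1]
      by_cases hn : 3 ^ n = 1
      · have h3 : z = 1 := by
          have := hz.pow_eq_one
          rwa [hn, pow_one] at this
        rw [h3, one_pow]
      · have h4 : Fact (1 < 3 ^ n) := ⟨by
          have : 0 < 3 ^ n := pow_pos (by norm_num) n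
          omega⟩
        rw [Units.val_one, ZMod.val_one, pow_one]
    obtain ⟨k, _, rfl⟩ := hz.eq_pow_of_pow_eq_one hξ
    rw [map_pow, h2]
  have hcyc : IsCyclic (ZMod (3 ^ n))ˣ := ZMod.isCyclic_units_of_prime_pow 3 Nat.prime_three
    (by norm_num) n
  obtain ⟨⟨s, hs⟩, hgen⟩ := IsCyclic.exists_generator (α := ((Gam φ).map χ))
  obtain ⟨s₀, hs₀, rfl⟩ := hs
  -- the decomposition
  have hdec : ∀ ρ ∈ Gam φ, ∃ (k : ℤ) (ρ' : Om ≃ₐ[ℚ_[3]] Om), ρ' ∈ Gam φ ∧ χ ρ' = 1 ∧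
      ρ = s₀ ^ k * ρ' := by
    intro ρ hρ
    obtain ⟨k, hk⟩ := Subgroup.mem_zpowers_iff.1 (hgen ⟨χ ρ, ρ, hρ, rfl⟩)
    have hk' : χ s₀ ^ k = χ ρ := congrArg Subtype.val hk
    refine ⟨k, (s₀ ^ k)⁻¹ * ρ, (Gam φ).mul_mem ((Gam φ).inv_mem ((Gam φ).zpow_mem hs₀ k)) hρ, ?_,
      (mul_inv_cancel_left _ _).symm⟩
    rw [map_mul, map_inv, map_zpow, hk', inv_mul_cancel]
  -- elements fixed by `s₀` and the kernel
  have hin : ∀ y : Om, s₀ y = y → (∀ ρ' ∈ Gam φ, χ ρ' = 1 → ρ' y = y) → InLoc φ y := by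
    intro y h1 h2 ρ hρ
    obtain ⟨k, ρ', h3, h4, rfl⟩ := hdec ρ hρ
    have h5 : s₀ ^ k ∈ Sta y := (Sta y).zpow_mem h1 k
    exact (Sta y).mul_mem h5 (h2 ρ' h3 h4)
  have hb1 : s₀ π ≠ π := fun h => hi2 (hin π h fun ρ' _ h4 => hker ρ' h4 π hπn)
  have hb3 : (s₀ π / π) ^ 3 = 1 := by
    rw [div_pow, ← map_pow, hπ3 s₀ hs₀]
    exact div_self (pow_ne_zero 3 hπ0)
  have ha3 : (s₀ w / w) ^ 3 = 1 := by
    rw [div_pow, ← map_pow, hw3 s₀ hs₀]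
    exact div_self (pow_ne_zero 3 hw0)
  obtain ⟨e, he⟩ := cube_roots ha3 hb3 fun h => hb1 (by
    rwa [div_eq_one_iff_eq hπ0] at h)
  refine ⟨w / π ^ e, (π ^ 3) ^ e, ?_, ?_, ⟨n, ?_⟩, ?_⟩
  · apply hin
    · rw [map_div₀, map_pow]
      have h1 : s₀ w = (s₀ π / π) ^ e * w := by
        rw [← he, div_mul_cancel₀ _ hw0]
      have h2 : s₀ π ≠ 0 := fun h => hπ0 ((map_eq_zero s₀).1 h)
      rw [h1, div_pow]
      field_simp
    · intro ρ' h3 h4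
      rw [map_div₀, map_pow, hker ρ' h4 π hπn, hfix ρ' h3 (hker ρ' h4)]
  · intro ρ hρ
    rw [map_pow, hπ3 ρ hρ]
  · have h1 : ((π ^ 3) ^ e) ^ 3 ^ n = (π ^ 3 ^ n) ^ (3 * e) := by
      rw [← pow_mul π 3 e, ← pow_mul, ← pow_mul π (3 ^ n), mul_comm]
    rw [h1, hπn, one_pow]
  · have h1 : (π ^ 3) ^ e = (π ^ e) ^ 3 := by
      rw [← pow_mul π 3 e, ← pow_mul π e 3, mul_comm]
    rw [h1, div_pow, mul_div_cancel₀ _ (pow_ne_zero 3 (pow_ne_zero e hπ0))]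

end Pool.Agent.LeoD.H31
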